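import Pool.Agent.H988.DJ.Mai
import Pool.Agent.H988.WM.Cor
import Pool.Graph.R_seed8.TH980.CN.Op

/-! # The dynamics of random conductances -/

set_option autoImplicit false
set_option linter.unusedSectionVars false

open MeasureTheory Filter Topology
open scoped BigOperators ENNReal NNReal InnerProductSpace ComplexConjugate

namespace Pool.Agent.H988.CD

open Pool.Agent.H5R2.NB Pool.Agent.H5R2.NBA
open Pool.Agent.Y662.ERG (Ex Ex_deriv Ex_zero Ex_add Ex_norm Ex_comm Ex_inv)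

section abs

variable {X : Type} [NormedAddCommGroup X] [InnerProductSpace ℂ X] [CompleteSpace X]

/-- the unitary group of a bounded selfadjoint operator -/
noncomputable def ux (T : X →L[ℂ] X) (hT : IsSelfAdjoint T) : UG X where
  U t := Ex T t
  zero' := Ex_zero T
  add' := Ex_add T
  norm' := Ex_norm hT
  cont' := fun x => continuous_iff_continuousAt.2 fun t => (Ex_deriv T t x).continuousAt

theorem Ex_opd (T : X →L[ℂ] X) (t : ℝ) :
    HasDerivAt (fun s : ℝ => Ex T s) (-Complex.I • (T * Ex T t)) t := by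
  have h := hasDerivAt_exp_smul_const' (𝕂 := ℝ) ((-Complex.I) • T) t
  refine h.congr_deriv ?_
  rw [smul_mul_assoc]
  rfl

/-- interpolation between two dynamics -/
theorem inter_deriv (A B S : X →L[ℂ] X) (t : ℝ) (y : ℝ → X) (s : ℝ) {y' : X}
    (hy : HasDerivAt y y' s) (hy' : y' = -Complex.I • B (y s)) :
    HasDerivAt (fun s : ℝ => Ex A (t - s) (S (y s)))
      (Complex.I • Ex A (t - s) (A (S (y s)) - S (B (y s)))) s := by
  have h1 : HasDerivAt (fun s : ℝ => Ex A (t - s)) (Complex.I • (A * Ex A (t - s))) s := by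
    have h2 : HasDerivAt (fun s : ℝ => t - s) (-1) s := by
      simpa using (hasDerivAt_id s).const_sub t
    have h3 := (Ex_opd A (t - s)).scomp s h2
    refine h3.congr_deriv ?_
    rw [neg_smul, neg_smul, one_smul, neg_neg]
  have h4 : HasDerivAt (fun s : ℝ => S (y s)) (S y') s := by
    have h5 := (S.restrictScalars ℝ).hasFDerivAt.comp_hasDerivAt s hy
    exact h5
  have h6 : HasDerivAt (fun s : ℝ => (Ex A (t - s)).restrictScalars ℝ)
      ((Complex.I • (A * Ex A (t - s))).restrictScalars ℝ) s := by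
    have h7 := (ContinuousLinearMap.restrictScalarsL ℂ X X ℝ ℝ).hasFDerivAt.comp_hasDerivAt s h1
    exact h7
  have h8 := h6.clm_apply h4
  refine h8.congr_deriv ?_
  show (Complex.I • (A * Ex A (t - s))) (S (y s)) + Ex A (t - s) (S y') = _
  rw [hy']
  have h9 : (Complex.I • (A * Ex A (t - s))) (S (y s)) = Complex.I • A (Ex A (t - s) (S (y s))) :=
    rfl
  rw [h9, ← Ex_comm, map_smul, map_smul, map_sub, smul_sub, neg_smul, ← sub_eq_add_neg]

/-- Duhamel's formula -/
theorem duh (A B : X →L[ℂ] X) (t : ℝ) (x : X) :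
    Ex B t x - Ex A t x = ∫ s in (0 : ℝ)..t,
      Complex.I • Ex A (t - s) (A (Ex B s x) - B (Ex B s x)) := by
  have hc : Continuous fun s : ℝ => Complex.I • Ex A (t - s) (A (Ex B s x) - B (Ex B s x)) := by
    have hB : Continuous fun s : ℝ => Ex B s x :=
      continuous_iff_continuousAt.2 fun t => (Ex_deriv B t x).continuousAt
    have hA : Continuous fun s : ℝ => Ex A s :=
      continuous_iff_continuousAt.2 fun t => (Ex_opd A t).continuousAt
    have h1 : Continuous fun s : ℝ => Ex A (t - s) := hA.comp (by fun_prop)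
    exact (h1.clm_apply (by fun_prop)).const_smul _
  have h := intervalIntegral.integral_eq_sub_of_hasDerivAt
    (f := fun s : ℝ => Ex A (t - s) ((1 : X →L[ℂ] X) (Ex B s x)))
    (f' := fun s : ℝ => Complex.I • Ex A (t - s) (A (Ex B s x) - B (Ex B s x)))
    (fun s _ => inter_deriv A B 1 t (fun s => Ex B s x) s (Ex_deriv B s x) rfl)
    (hc.intervalIntegrable (μ := volume) 0 t)
  rw [h]
  simp only [sub_self, sub_zero, Ex_zero]
  rfl

/-- intertwining passes to the groups -/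
theorem Ex_inter {A B S : X →L[ℂ] X} (h : ∀ y, A (S y) = S (B y)) (t : ℝ) (x : X) :
    Ex A t (S x) = S (Ex B t x) := by
  have h1 : ∀ s : ℝ, HasDerivAt (fun s : ℝ => Ex A (t - s) (S (Ex B s x))) 0 s := by
    intro s
    have h2 := inter_deriv A B S t (fun s => Ex B s x) s (Ex_deriv B s x) rfl
    refine h2.congr_deriv ?_
    rw [h, sub_self, map_zero, smul_zero]
  have h3 := is_const_of_deriv_eq_zero (fun s => (h1 s).differentiableAt) (fun s => (h1 s).deriv) 0 t
  simp only [sub_zero, sub_self, Ex_zero] at h3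
  exact h3

/-- uniqueness -/
theorem Ex_unique {T : X →L[ℂ] X} {y : ℝ → X}
    (h : ∀ t, HasDerivAt y (-Complex.I • T (y t)) t) (t : ℝ) : y t = Ex T t (y 0) := by
  have h1 : ∀ s : ℝ, HasDerivAt (fun s : ℝ => Ex T (t - s) ((1 : X →L[ℂ] X) (y s))) 0 s := by
    intro s
    have h2 := inter_deriv T T 1 t y s (h s) rfl
    refine h2.congr_deriv ?_
    have h3 : T ((1 : X →L[ℂ] X) (y s)) - (1 : X →L[ℂ] X) (T (y s)) = 0 := sub_self _
    rw [h3, map_zero, smul_zero]
  have h3 := is_const_of_deriv_eq_zero (fun s => (h1 s).differentiableAt) (fun s => (h1 s).deriv) 0 t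
  simp only [sub_zero, sub_self, Ex_zero] at h3
  exact h3.symm

/-- rank one families -/
theorem fam_ux {T : ℝ → X →L[ℂ] X} (hT : ∀ κ, IsSelfAdjoint (T κ)) {e : X}
    (h : ∀ κ κ' y, T κ' y = T κ y + (((κ' - κ : ℝ) : ℂ) * ⟪e, y⟫_ℂ) • e) :
    Fam (fun κ => ux (T κ) (hT κ)) e := by
  intro κ κ' t x
  have h1 := duh (T κ) (T κ') t x
  show Ex (T κ') t x = Ex (T κ) t x - (Complex.I * ((κ' - κ : ℝ) : ℂ)) •
    ∫ s in (0 : ℝ)..t, ⟪e, Ex (T κ') s x⟫_ℂ • Ex (T κ) (t - s) e
  have h2 : ∀ s : ℝ, Complex.I • Ex (T κ) (t - s) (T κ (Ex (T κ') s x) - T κ' (Ex (T κ') s x)) =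
      (-(Complex.I * ((κ' - κ : ℝ) : ℂ))) • (⟪e, Ex (T κ') s x⟫_ℂ • Ex (T κ) (t - s) e) := by
    intro s
    rw [h κ κ', sub_add_cancel_left, map_neg, map_smul, smul_smul, smul_neg, smul_smul, ← neg_smul]
    congr 1
    ring
  simp only [h2] at h1
  rw [intervalIntegral.integral_smul] at h1
  rw [sub_eq_iff_eq_add', neg_smul, ← sub_eq_add_neg] at h1
  exact h1

/-- strong continuity in the operator -/
theorem Ex_seq {T : ℕ → X →L[ℂ] X} {T0 : X →L[ℂ] X} (hT : ∀ n, IsSelfAdjoint (T n))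
    (hT0 : IsSelfAdjoint T0)
    (h : ∀ y, Tendsto (fun n => T n y) atTop (𝓝 (T0 y))) (t : ℝ) (x : X) :
    Tendsto (fun n => Ex (T n) t x) atTop (𝓝 (Ex T0 t x)) := by
  obtain ⟨C, hC⟩ : ∃ C, ∀ n, ‖T n‖ ≤ C := by
    refine banach_steinhaus fun y => ?_
    obtain ⟨C, hC⟩ := (h y).norm.bddAbove_range
    exact ⟨C, fun n => hC ⟨n, rfl⟩⟩
  have h0 : Tendsto (fun n => ∫ s in (0 : ℝ)..t,
      Complex.I • Ex (T n) (t - s) (T n (Ex T0 s x) - T0 (Ex T0 s x))) atTop
      (𝓝 (∫ _s in (0 : ℝ)..t, (0 : X))) := by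
    refine intervalIntegral.tendsto_integral_filter_of_dominated_convergence
      (fun _ => (C + ‖T0‖) * ‖x‖) (Eventually.of_forall fun n => ?_)
      (Eventually.of_forall fun n => Eventually.of_forall fun s _ => ?_)
      (intervalIntegrable_const) (Eventually.of_forall fun s _ => ?_)
    · have hB : Continuous fun s : ℝ => Ex T0 s x :=
        continuous_iff_continuousAt.2 fun t => (Ex_deriv T0 t x).continuousAt
      have hA : Continuous fun s : ℝ => Ex (T n) s :=
        continuous_iff_continuousAt.2 fun t => (Ex_opd (T n) t).continuousAt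
      have h1 : Continuous fun s : ℝ => Ex (T n) (t - s) := hA.comp (by fun_prop)
      exact ((h1.clm_apply (by fun_prop)).const_smul Complex.I).aestronglyMeasurable
    · rw [norm_smul, Complex.norm_I, one_mul, Ex_norm (hT n)]
      refine (norm_sub_le _ _).trans ?_
      rw [add_mul]
      refine add_le_add ?_ ?_
      · refine ((T n).le_opNorm _).trans ?_
        rw [Ex_norm hT0]
        exact mul_le_mul_of_nonneg_right (hC n) (norm_nonneg _)
      · refine (T0.le_opNorm _).trans ?_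
        rw [Ex_norm hT0]
    · rw [tendsto_zero_iff_norm_tendsto_zero]
      have h2 : Tendsto (fun n => ‖T n (Ex T0 s x) - T0 (Ex T0 s x)‖) atTop (𝓝 0) :=
        tendsto_iff_norm_sub_tendsto_zero.1 (h _)
      refine h2.congr fun n => ?_
      rw [norm_smul, Complex.norm_I, one_mul, Ex_norm (hT n)]
  rw [intervalIntegral.integral_zero] at h0
  have h3 : Tendsto (fun n => Ex T0 t x - (∫ s in (0 : ℝ)..t,
      Complex.I • Ex (T n) (t - s) (T n (Ex T0 s x) - T0 (Ex T0 s x)))) atTop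
      (𝓝 (Ex T0 t x - 0)) := tendsto_const_nhds.sub h0
  rw [sub_zero] at h3
  refine h3.congr fun n => ?_
  rw [← duh (T n) T0 t x, sub_sub_cancel]

theorem Ex_lip {T : X →L[ℂ] X} (hT : IsSelfAdjoint T) (s t : ℝ) (x : X) :
    ‖Ex T t x - Ex T s x‖ ≤ ‖T x‖ * ‖t - s‖ := by
  refine Convex.norm_image_sub_le_of_norm_hasDerivWithin_le (s := Set.univ)
    (f := fun s : ℝ => Ex T s x) (f' := fun s : ℝ => -Complex.I • T (Ex T s x))
    (fun r _ => (Ex_deriv T r x).hasDerivWithinAt) (fun r _ => ?_) convex_univ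
    (Set.mem_univ _) (Set.mem_univ _)
  rw [norm_smul, norm_neg, Complex.norm_I, one_mul, ← Ex_comm, Ex_norm hT]

/-- joint continuity -/
theorem Ex_joint {Ω : Type} [TopologicalSpace Ω] [FirstCountableTopology Ω] {T : Ω → X →L[ℂ] X}
    (hT : ∀ w, IsSelfAdjoint (T w)) (hc : ∀ y, Continuous fun w => T w y) :
    Continuous fun p : Ω × ℝ × X => Ex (T p.1) p.2.1 p.2.2 := by
  rw [continuous_iff_seqContinuous]
  intro p q hp
  have h1 : Tendsto (fun n => (p n).1) atTop (𝓝 q.1) := (continuous_fst.tendsto q).comp hp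
  have h2 : Tendsto (fun n => (p n).2.1) atTop (𝓝 q.2.1) :=
    ((continuous_fst.comp continuous_snd).tendsto q).comp hp
  have h3 : Tendsto (fun n => (p n).2.2) atTop (𝓝 q.2.2) :=
    ((continuous_snd.comp continuous_snd).tendsto q).comp hp
  have h4 : ∀ y, Tendsto (fun n => T (p n).1 y) atTop (𝓝 (T q.1 y)) := fun y =>
    ((hc y).tendsto q.1).comp h1
  have h5 := Ex_seq (fun n => hT (p n).1) (hT q.1) h4 q.2.1 q.2.2
  rw [tendsto_iff_norm_sub_tendsto_zero]
  have h6 : Tendsto (fun n => ‖(p n).2.2 - q.2.2‖ + ‖T (p n).1 q.2.2‖ * ‖(p n).2.1 - q.2.1‖ +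
      ‖Ex (T (p n).1) q.2.1 q.2.2 - Ex (T q.1) q.2.1 q.2.2‖) atTop (𝓝 (0 + ‖T q.1 q.2.2‖ * 0 + 0)) :=
    ((tendsto_iff_norm_sub_tendsto_zero.1 h3).add
      ((h4 q.2.2).norm.mul (tendsto_iff_norm_sub_tendsto_zero.1 h2))).add
      (tendsto_iff_norm_sub_tendsto_zero.1 h5)
  rw [mul_zero, add_zero, add_zero] at h6
  refine squeeze_zero (fun _ => norm_nonneg _) (fun n => ?_) h6
  have e1 : Ex (T (p n).1) (p n).2.1 (p n).2.2 - Ex (T q.1) q.2.1 q.2.2 =
      Ex (T (p n).1) (p n).2.1 ((p n).2.2 - q.2.2) +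
      (Ex (T (p n).1) (p n).2.1 q.2.2 - Ex (T (p n).1) q.2.1 q.2.2) +
      (Ex (T (p n).1) q.2.1 q.2.2 - Ex (T q.1) q.2.1 q.2.2) := by
    rw [map_sub]
    abel
  show ‖Ex (T (p n).1) (p n).2.1 (p n).2.2 - Ex (T q.1) q.2.1 q.2.2‖ ≤ _
  rw [e1]
  refine (norm_add₃_le).trans ?_
  rw [Ex_norm (hT _)]
  gcongr
  exact Ex_lip (hT _) _ _ _

end abs

end Pool.Agent.H988.CD
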