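import Pool.Agent.H988.CD.A

/-! # Random conductances and a translation invariant dynamics -/

set_option autoImplicit false
set_option linter.unusedSectionVars false

open MeasureTheory Filter Topology
open scoped BigOperators ENNReal NNReal InnerProductSpace ComplexConjugate

namespace Pool.Agent.H988.CD

open Pool.Agent.H5R2.NB Pool.Agent.H5R2.NBA Pool.Agent.H988.DJ
open Pool.Agent.K7.H83.SI
open Pool.Agent.Y662.ERG (Ex Ex_deriv Ex_zero Ex_add Ex_norm Ex_comm Ex_inv)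
open Pool.Agent.TH980.CN (Ed cc cc_eq HC HC_apply HC_sa HC_cont HC_up be inner_be be_apply)
open Pool.Agent.TH980.IM.PR (up mp_up mp_sh)

variable {d : ℕ} {a b : ℝ}

/-- the dynamics of the conductances `w` -/
noncomputable def wc (ha : 0 < a) (hab : a ≤ b) (w : Ed d → ℝ) : UG (L2 (Site d)) :=
  ux (HC a b w) (HC_sa ha hab w)

theorem ux_congr {X : Type} [NormedAddCommGroup X] [InnerProductSpace ℂ X] [CompleteSpace X]
    {T T' : X →L[ℂ] X} (h : T = T') (hT : IsSelfAdjoint T) (hT' : IsSelfAdjoint T') :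
    ux T hT = ux T' hT' := by
  subst h
  rfl

/-- the translation of the conductances -/
def th (z : Site d) (w : Ed d → ℝ) : Ed d → ℝ := fun e => w (e.1 + z, e.2)

theorem th_mp (hd : 1 ≤ d) (ν : Measure ℝ) [IsProbabilityMeasure ν] (z : Site d) :
    MeasurePreserving (th z) (Pool.Agent.TH980.IM.PR.PP (Ed d) ν)
      (Pool.Agent.TH980.IM.PR.PP (Ed d) ν) := by
  have : NeZero d := ⟨by omega⟩
  have h := mp_sh ν ((z, 0) : Ed d)
  have e : (Pool.Agent.TH980.IM.PR.sh ((z, 0) : Ed d)) = th z := by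
    funext w e
    show w (e + (z, 0)) = w (e.1 + z, e.2)
    congr 1
    ext1
    · rfl
    · show e.2 + 0 = e.2
      exact add_zero _
  rwa [e] at h

theorem HC_th (ha : 0 < a) (hab : a ≤ b) (w : Ed d → ℝ) {z : Site d}
    {S : L2 (Site d) →L[ℂ] L2 (Site d)} (hS : IsShift z S) (f : L2 (Site d)) :
    HC a b (th z w) (S f) = S (HC a b w f) := by
  ext x
  rw [hS, HC_apply ha hab, HC_apply ha hab]
  refine Finset.sum_congr rfl fun i _ => ?_
  rw [hS, hS, hS]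
  have e1 : x + Pi.single i 1 + z = x + z + Pi.single i 1 := by abel
  have e2 : x - Pi.single i 1 + z = x + z - Pi.single i 1 := by abel
  show ((cc a b (w (x + z, i)) : ℝ) : ℂ) * _ + ((cc a b (w (x - Pi.single i 1 + z, i)) : ℝ) : ℂ) * _ = _
  rw [e1, e2]

theorem dyn_wc (ha : 0 < a) (hab : a ≤ b) : Dyn (th (d := d)) (wc ha hab) :=
  ⟨Ex_joint (fun w => HC_sa ha hab w) (fun y => HC_cont a b y), fun z S hS w t ψ =>
    Ex_inter (fun y => HC_th ha hab w hS y) t ψ⟩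

theorem dyn_G {R : UG (L2 (Site d))} (hR : ∀ (z : Site d) (S : L2 (Site d) →L[ℂ] L2 (Site d)),
    IsShift z S → ∀ t ψ, R.U t (S ψ) = S (R.U t ψ)) :
    Dyn (th (d := d)) (fun _ : Ed d → ℝ => R) := by
  refine ⟨?_, fun z S hS w t ψ => hR z S hS t ψ⟩
  exact cont_Uj' R
where
  cont_Uj' (R : UG (L2 (Site d))) : Continuous fun p : (Ed d → ℝ) × ℝ × L2 (Site d) =>
      R.U p.2.1 p.2.2 := by
    rw [continuous_iff_continuousAt]
    intro p
    rw [ContinuousAt, tendsto_iff_norm_sub_tendsto_zero]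
    have hg : Continuous fun q : (Ed d → ℝ) × ℝ × L2 (Site d) =>
        ‖q.2.2 - p.2.2‖ + ‖R.U q.2.1 p.2.2 - R.U p.2.1 p.2.2‖ := by
      have h1 : Continuous fun q : (Ed d → ℝ) × ℝ × L2 (Site d) => R.U q.2.1 p.2.2 :=
        (R.cont' p.2.2).comp (continuous_fst.comp continuous_snd)
      fun_prop
    have h3 := hg.tendsto p
    simp only [sub_self, norm_zero, add_zero] at h3
    refine squeeze_zero (fun _ => norm_nonneg _) (fun q => ?_) h3
    have e1 : R.U q.2.1 q.2.2 - R.U p.2.1 p.2.2 =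
        R.U q.2.1 (q.2.2 - p.2.2) + (R.U q.2.1 p.2.2 - R.U p.2.1 p.2.2) := by
      rw [map_sub]
      abel
    rw [e1]
    refine (norm_add_le _ _).trans (le_of_eq ?_)
    rw [R.norm']

/-- an operator which vanishes on the edge vectors is zero -/
theorem zero_of_be (hd : 1 ≤ d) {B : L2 (Site d) →L[ℂ] L2 (Site d)} (h : ∀ e : Ed d, B (be e) = 0) :
    B = 0 := by
  have h1 : ∀ v : L2 (Site d), ContinuousLinearMap.adjoint B v = 0 := by
    intro v
    set f := ContinuousLinearMap.adjoint B v with hf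
    set i0 : Fin d := ⟨0, hd⟩ with hi0
    have h2 : ∀ x : Site d, f x = f (x + Pi.single i0 1) := by
      intro x
      have h3 := inner_be ((x, i0) : Ed d) f
      have h4 : ⟪be ((x, i0) : Ed d), f⟫_ℂ = 0 := by
        rw [hf, ContinuousLinearMap.adjoint_inner_right, h, inner_zero_left]
      have h5 : f x - f (x + Pi.single i0 1) = 0 := h3.symm.trans h4
      exact sub_eq_zero.1 h5
    have h3 : ∀ (x : Site d) (n : ℕ), f (x + Pi.single i0 (n : ℤ)) = f x := by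
      intro x n
      induction n with
      | zero => simp
      | succ n ih =>
        have e1 : x + Pi.single i0 ((n + 1 : ℕ) : ℤ) = x + Pi.single i0 (n : ℤ) + Pi.single i0 1 := by
          rw [add_assoc, ← Pi.single_add]
          push_cast
          rfl
        have e2 : f (x + Pi.single i0 ((n + 1 : ℕ) : ℤ)) =
            f (x + Pi.single i0 (n : ℤ) + Pi.single i0 1) := congrArg (fun y => f y) e1
        exact e2.trans ((h2 _).symm.trans ih)
    have hs : Summable fun x : Site d => ‖f x‖ ^ (2 : ℝ≥0∞).toReal :=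
      (memℓp_gen_iff (by norm_num)).1 (lp.memℓp f)
    ext x
    have hinj : Function.Injective fun n : ℕ => x + Pi.single i0 (n : ℤ) := by
      intro m n hmn
      have h4 := congrFun (add_left_cancel hmn) i0
      simpa using h4
    have h5 := hs.comp_injective hinj
    have h6 : (fun n : ℕ => ‖f (x + Pi.single i0 (n : ℤ))‖ ^ (2 : ℝ≥0∞).toReal) =
        fun _ => ‖f x‖ ^ (2 : ℝ≥0∞).toReal := by
      funext n
      rw [h3]
    have h7 : Summable fun _ : ℕ => ‖f x‖ ^ (2 : ℝ≥0∞).toReal := by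
      rw [← h6]
      exact h5
    have h8 := (summable_const_iff _).1 h7
    have h9 : ‖f x‖ = 0 := by
      by_contra hne
      exact hne ((Real.rpow_eq_zero (norm_nonneg _) (by norm_num)).1 h8)
    simpa using h9
  have h2 : ContinuousLinearMap.adjoint B = 0 := by
    ext1 v
    exact h1 v
  have h3 := congrArg ContinuousLinearMap.adjoint h2
  rwa [ContinuousLinearMap.adjoint_adjoint, map_zero] at h3

/-- the family of one edge -/
noncomputable def Te (a b : ℝ) (w : Ed d → ℝ) (e : Ed d) (κ : ℝ) :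
    L2 (Site d) →L[ℂ] L2 (Site d) :=
  HC a b w + ((κ - cc a b (w e) : ℝ) : ℂ) • ((innerSL ℂ (be e)).smulRight (be e))

theorem Te_apply (w : Ed d → ℝ) (e : Ed d) (κ : ℝ) (f : L2 (Site d)) :
    Te a b w e κ f = HC a b w f + (((κ - cc a b (w e) : ℝ) : ℂ) * ⟪be e, f⟫_ℂ) • be e := by
  show HC a b w f + ((κ - cc a b (w e) : ℝ) : ℂ) • (⟪be e, f⟫_ℂ • be e) = _
  rw [smul_smul]

theorem Te_sa (ha : 0 < a) (hab : a ≤ b) (w : Ed d → ℝ) (e : Ed d) (κ : ℝ) :
    IsSelfAdjoint (Te a b w e κ) := by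
  rw [ContinuousLinearMap.isSelfAdjoint_iff_isSymmetric]
  intro x y
  have h1 : ⟪HC a b w x, y⟫_ℂ = ⟪x, HC a b w y⟫_ℂ :=
    (ContinuousLinearMap.isSelfAdjoint_iff_isSymmetric.1 (HC_sa ha hab w)) x y
  show ⟪Te a b w e κ x, y⟫_ℂ = ⟪x, Te a b w e κ y⟫_ℂ
  rw [Te_apply, Te_apply, inner_add_left, inner_add_right, h1, inner_smul_left, inner_smul_right,
    map_mul, Complex.conj_ofReal, inner_conj_symm]
  ring

theorem Te_fam (ha : 0 < a) (hab : a ≤ b) (w : Ed d → ℝ) (e : Ed d) :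
    Fam (fun κ => ux (Te a b w e κ) (Te_sa ha hab w e κ)) (be e) := by
  refine fam_ux _ fun κ κ' y => ?_
  rw [Te_apply, Te_apply, add_assoc, ← add_smul]
  congr 2
  push_cast
  ring

theorem Te_up (ha : 0 < a) (hab : a ≤ b) (w : Ed d → ℝ) (e : Ed d) (v : ℝ) :
    Te a b w e (cc a b v) = HC a b (up e (w, v)) := by
  ext1 f
  rw [Te_apply, HC_up ha hab]

theorem Te_self (w : Ed d → ℝ) (e : Ed d) : Te a b w e (cc a b (w e)) = HC a b w := by
  ext1 f
  rw [Te_apply, sub_self]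
  simp

/-- the limits vanish on the edge vectors -/
theorem edge_sing (ha : 0 < a) (hab : a ≤ b) (R : UG (L2 (Site d))) {ν : Measure ℝ}
    [IsProbabilityMeasure ν] (hν1 : ∀ᵐ v ∂ν, v ∈ Set.Icc a b) (hν : ∀ κ : ℝ, ν {κ} ≠ 1)
    (Nk : ℕ → ℕ) (hNk : Tendsto Nk atTop atTop)
    (hG : ∀ᵐ w ∂(Pool.Agent.TH980.IM.PR.PP (Ed d) ν), ∃ B : L2 (Site d) →L[ℂ] L2 (Site d),
      GoodQ R (wc ha hab w) Nk B) :
    ∀ᵐ w ∂(Pool.Agent.TH980.IM.PR.PP (Ed d) ν), ∀ e : Ed d,
      ∀ B : L2 (Site d) →L[ℂ] L2 (Site d), GoodQ R (wc ha hab w) Nk B →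
      ∀ φ ∈ HAC R, ⟪φ, B (be e)⟫_ℂ = 0 := by
  rw [ae_all_iff]
  intro e
  have hP : IsProbabilityMeasure (Pool.Agent.TH980.IM.PR.PP (Ed d) ν) := by
    unfold Pool.Agent.TH980.IM.PR.PP
    infer_instance
  have hmp := mp_up ν e
  have h1 : ∀ᵐ p ∂((Pool.Agent.TH980.IM.PR.PP (Ed d) ν).prod ν),
      ∃ B : L2 (Site d) →L[ℂ] L2 (Site d), GoodQ R (wc ha hab (up e p)) Nk B :=
    hmp.quasiMeasurePreserving.ae hG
  have h2 := Measure.ae_ae_of_ae_prod h1
  have h0 : ∀ᵐ w ∂(Pool.Agent.TH980.IM.PR.PP (Ed d) ν), w e ∈ Set.Icc a b :=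
    (measurePreserving_eval_infinitePi (fun _ : Ed d => ν) e).quasiMeasurePreserving.ae hν1
  filter_upwards [h2, h0] with w hV hwe B hB φ hφ
  have h3 : ∃ k, k ≠ w e ∧ k ∈ Set.Icc a b ∧ ∃ B : L2 (Site d) →L[ℂ] L2 (Site d),
      GoodQ R (wc ha hab (up e (w, k))) Nk B := by
    by_contra h
    have h4 : ∀ᵐ k ∂ν, k = w e := by
      filter_upwards [hV, hν1] with k hk hk1
      by_contra hne
      exact h ⟨k, hne, hk1, hk⟩
    have h5 : ν {w e} = 1 := by
      rw [← prob_compl_eq_zero_iff (measurableSet_singleton _)]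
      exact h4
    exact hν _ h5
  obtain ⟨k, hk, hk1, B', hB'⟩ := h3
  have hne : cc a b k ≠ cc a b (w e) := by
    rw [cc_eq hk1, cc_eq hwe]
    exact hk
  refine w6Q_hac R (fun κ => ux (Te a b w e κ) (Te_sa ha hab w e κ)) (be e) (Te_fam ha hab w e) hne
    Nk hNk B' B ?_ ?_ φ hφ
  · have e1 : ux (Te a b w e (cc a b k)) (Te_sa ha hab w e _) = wc ha hab (up e (w, k)) :=
      ux_congr (Te_up ha hab w e k) _ _
    show GoodQ R (ux (Te a b w e (cc a b k)) (Te_sa ha hab w e _)) Nk B'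
    rw [e1]
    exact hB'
  · have e1 : ux (Te a b w e (cc a b (w e))) (Te_sa ha hab w e _) = wc ha hab w :=
      ux_congr (Te_self w e) _ _
    show GoodQ R (ux (Te a b w e (cc a b (w e))) (Te_sa ha hab w e _)) Nk B
    rw [e1]
    exact hB

/-- **disjointness** -/
theorem cd_disjoint (hd : 1 ≤ d) (ha : 0 < a) (hab : a ≤ b) {R : UG (L2 (Site d))}
    (hR : ∀ (z : Site d) (S : L2 (Site d) →L[ℂ] L2 (Site d)), IsShift z S → ∀ t ψ,
      R.U t (S ψ) = S (R.U t ψ)) (hac : ∀ ψ, sm R ψ ≪ volume) {ν : Measure ℝ}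
    [IsProbabilityMeasure ν] (hν1 : ∀ᵐ v ∂ν, v ∈ Set.Icc a b) (hν : ∀ κ : ℝ, ν {κ} ≠ 1)
    {ψ : (Ed d → ℝ) → L2 (Site d)} (hψ : MemLp ψ 2 (Pool.Agent.TH980.IM.PR.PP (Ed d) ν)) :
    Tendsto (fun T : ℝ => ∫⁻ w, ‖avT R (wc ha hab w) T (ψ w)‖ₑ ^ 2
      ∂(Pool.Agent.TH980.IM.PR.PP (Ed d) ν)) atTop (𝓝 0) ∧
    Tendsto (fun T : ℝ => ∫⁻ w, ‖avT (wc ha hab w) R T (ψ w)‖ₑ ^ 2
      ∂(Pool.Agent.TH980.IM.PR.PP (Ed d) ν)) atTop (𝓝 0) := by
  have hP : IsProbabilityMeasure (Pool.Agent.TH980.IM.PR.PP (Ed d) ν) := by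
    unfold Pool.Agent.TH980.IM.PR.PP
    infer_instance
  have hz : ∀ Nk : ℕ → ℕ, Tendsto Nk atTop atTop →
      (∀ᵐ w ∂(Pool.Agent.TH980.IM.PR.PP (Ed d) ν), ∃ B : L2 (Site d) →L[ℂ] L2 (Site d),
        GoodQ R (wc ha hab w) Nk B) →
      ∀ᵐ w ∂(Pool.Agent.TH980.IM.PR.PP (Ed d) ν), ∀ B : L2 (Site d) →L[ℂ] L2 (Site d),
        GoodQ R (wc ha hab w) Nk B → B = 0 := by
    intro Nk hNk hG
    filter_upwards [edge_sing ha hab R hν1 hν Nk hNk hG] with w hw B hB
    refine zero_of_be hd fun e => ?_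
    exact inner_self_eq_zero.1 (hw e B hB (B (be e)) (hac_of_sm (hac _)))
  exact ⟨main_disj (R := fun _ => R) (W := wc ha hab) (th_mp hd ν) (dyn_G hR) (dyn_wc ha hab) hz hψ,
    main_disj' (R := fun _ => R) (W := wc ha hab) (th_mp hd ν) (dyn_G hR) (dyn_wc ha hab) hz hψ⟩

end Pool.Agent.H988.CD
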