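import Pool.Agent.H988.CD.B
import Pool.Agent.H988.DJ.Free

/-! # Constant conductances -/

set_option autoImplicit false
set_option linter.unusedSectionVars false

open MeasureTheory Filter Topology
open scoped BigOperators ENNReal NNReal InnerProductSpace ComplexConjugate

namespace Pool.Agent.H988.CD

open Pool.Agent.H5R2.NB Pool.Agent.H5R2.NBA Pool.Agent.H988.DJ
open Pool.Agent.K7.H83.SI
open Pool.Agent.Y662.ERG (Ex Ex_deriv Ex_zero Ex_add Ex_norm Ex_comm Ex_inv)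
open Pool.Agent.TH980.CN (Ed cc cc_eq HC HC_apply HC_sa HC_cont HC_up be inner_be be_apply)

variable {d : ℕ}

/-- constant conductances `1` -/
noncomputable def w1 (d : ℕ) : UG (L2 (Site d)) := wc (d := d) one_pos (le_refl (1 : ℝ)) fun _ => 1

theorem w1_grp : IsGrp (-1) (fun _ => (2 * d : ℝ)) (w1 d) := by
  intro ψ
  refine ⟨fun T => ⟨‖ψ‖, fun t _ => ((w1 d).norm' t ψ).le⟩, fun t x => ?_⟩
  have h1 := Ex_deriv (HC 1 1 (fun _ : Ed d => (1 : ℝ))) t ψ
  have h2 := ((innerSL ℂ (dl x : L2 (Site d))).restrictScalars ℝ).hasFDerivAt.comp_hasDerivAt t h1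
  have h3 : HasDerivAt (fun s : ℝ => ((w1 d).U s ψ) x)
      (⟪(dl x : L2 (Site d)), -Complex.I • HC 1 1 (fun _ : Ed d => (1 : ℝ))
        (Ex (HC 1 1 (fun _ : Ed d => (1 : ℝ))) t ψ)⟫_ℂ) t := by
    refine h2.congr_of_eventuallyEq (Eventually.of_forall fun s => ?_)
    exact (SYM.inner_dl x _).symm
  refine h3.congr_deriv ?_
  rw [inner_smul_right, SYM.inner_dl, HC_apply one_pos le_rfl]
  have hc : cc 1 1 (1 : ℝ) = 1 := cc_eq ⟨le_rfl, le_rfl⟩
  simp only [hc]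
  have h4 : ((0 : L2 (Site d)) : Site d → ℂ) x = 0 := rfl
  rw [h4, add_zero]
  congr 1
  show (∑ i : Fin d, (((1 : ℝ) : ℂ) * (((w1 d).U t ψ) x - ((w1 d).U t ψ) (x + Pi.single i 1)) +
    ((1 : ℝ) : ℂ) * (((w1 d).U t ψ) x - ((w1 d).U t ψ) (x - Pi.single i 1)))) =
    hopf (-1) (fun y => ((w1 d).U t ψ) y) x + ((2 * d : ℝ) : ℂ) * ((w1 d).U t ψ) x
  unfold hopf
  have h5 : ∀ i : Fin d, (((1 : ℝ) : ℂ) * (((w1 d).U t ψ) x - ((w1 d).U t ψ) (x + Pi.single i 1)) +
      ((1 : ℝ) : ℂ) * (((w1 d).U t ψ) x - ((w1 d).U t ψ) (x - Pi.single i 1))) =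
      2 * ((w1 d).U t ψ) x - (((w1 d).U t ψ) (x + Pi.single i 1) +
        ((w1 d).U t ψ) (x - Pi.single i 1)) := by
    intro i
    push_cast
    ring
  rw [Finset.sum_congr rfl fun i _ => h5 i, Finset.sum_sub_distrib, Finset.sum_const,
    Finset.card_univ, Fintype.card_fin, nsmul_eq_mul]
  push_cast
  ring

theorem w1_ac (hd : 1 ≤ d) (u : L2 (Site d)) : sm (w1 d) u ≪ volume := by
  refine ac_of_dl (fun x => ?_) u
  have h0 : sm (w1 d) (dl x) = sm (w1 d) (dl 0) := by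
    have hS := Pool.Agent.R988.NQ.sO_shift (-x)
    refine sm_ext_iff fun t => ?_
    rw [← LIMB.shift_dl x (Pool.Agent.R988.NQ.sO (-x)) hS]
    have h1 := (dyn_wc (d := d) one_pos (le_refl (1 : ℝ))).cov (-x) _ hS (fun _ => 1) t (dl 0)
    have h2 : (w1 d).U t (Pool.Agent.R988.NQ.sO (-x) (dl 0)) =
        Pool.Agent.R988.NQ.sO (-x) ((w1 d).U t (dl 0)) := h1
    rw [h2]
    exact Pool.Agent.H988.WM.sO_iso _ _ _
  rw [h0, sm_free w1_grp]
  refine Measure.AbsolutelyContinuous.mk fun N hN hN0 => ?_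
  rw [Measure.map_apply lamd_cont.measurable hN]
  exact lamd_null hd hN hN0

theorem HC_const {c : ℝ} (hc : 0 < c) (f : L2 (Site d)) :
    HC c c (fun _ : Ed d => c) f = (c : ℂ) • HC 1 1 (fun _ : Ed d => (1 : ℝ)) f := by
  ext x
  rw [HC_apply hc le_rfl]
  show _ = (c : ℂ) * (HC 1 1 (fun _ : Ed d => (1 : ℝ)) f) x
  rw [HC_apply one_pos le_rfl, Finset.mul_sum]
  have h1 : cc 1 1 (1 : ℝ) = 1 := cc_eq ⟨le_rfl, le_rfl⟩
  have h2 : cc c c c = c := cc_eq ⟨le_rfl, le_rfl⟩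
  refine Finset.sum_congr rfl fun i _ => ?_
  simp only [h1, h2]
  push_cast
  ring

theorem wc_const {c : ℝ} (hc : 0 < c) (t : ℝ) (u : L2 (Site d)) :
    (wc (d := d) hc (le_refl c) fun _ => c).U t u = (w1 d).U (c * t) u := by
  show Ex (HC c c (fun _ : Ed d => c)) t u = Ex (HC 1 1 (fun _ : Ed d => (1 : ℝ))) (c * t) u
  have h1 : HC c c (fun _ : Ed d => c) = c • HC 1 1 (fun _ : Ed d => (1 : ℝ)) := by
    ext1 f
    rw [HC_const hc]
    exact (Complex.coe_smul c _)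
  rw [h1]
  unfold Pool.Agent.Y662.ERG.Ex
  congr 2
  rw [smul_comm (-Complex.I) c, mul_comm c t]
  ext1 f
  show t • (c • ((-Complex.I • HC 1 1 (fun _ : Ed d => (1 : ℝ))) f)) =
    (t * c) • ((-Complex.I • HC 1 1 (fun _ : Ed d => (1 : ℝ))) f)
  exact smul_smul t c _

theorem wc_ac (hd : 1 ≤ d) {c : ℝ} (hc : 0 < c) (u : L2 (Site d)) :
    sm (wc (d := d) hc (le_refl c) fun _ => c) u ≪ volume := by
  have hg : Measurable fun E : ℝ => c * E := by fun_prop
  have h1 : sm (wc (d := d) hc (le_refl c) fun _ => c) u = (sm (w1 d) u).map fun E => c * E := by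
    have hf : IsFiniteMeasure ((sm (w1 d) u).map fun E : ℝ => c * E) := inferInstance
    refine sm_eq ⟨hf, fun t => ?_⟩
    rw [wc_const hc, sm_inner, integral_map hg.aemeasurable (by fun_prop)]
    refine integral_congr_ae (Eventually.of_forall fun E => ?_)
    show Complex.exp _ = Complex.exp _
    congr 1
    push_cast
    ring
  rw [h1]
  refine Measure.AbsolutelyContinuous.mk fun N hN hN0 => ?_
  rw [Measure.map_apply hg hN]
  refine w1_ac hd u ?_
  rw [Real.volume_preimage_mul_left hc.ne', hN0, mul_zero]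

end Pool.Agent.H988.CD
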