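import Pool.Agent.H988.CD.C
import Pool.Agent.H988.DJ.Mean

/-! # Spectral averaging over one conductance -/

set_option autoImplicit false
set_option linter.unusedSectionVars false

open MeasureTheory Filter Topology
open scoped BigOperators ENNReal NNReal InnerProductSpace ComplexConjugate

namespace Pool.Agent.H988.CD

open Pool.Agent.H5R2.NB Pool.Agent.H5R2.NBA Pool.Agent.H988.DJ Pool.Agent.H988.RS
open Pool.Agent.K7.H83.SI
open Pool.Agent.Y662.ERG (Ex Ex_deriv Ex_zero Ex_add Ex_norm Ex_comm Ex_inv)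
open Pool.Agent.TH980.CN (Ed cc cc_eq HC HC_apply HC_sa HC_cont HC_up be inner_be be_apply)
open Pool.Agent.TH980.IM.PR (up mp_up mp_sh)

variable {d : ℕ}

theorem smu {W : UG (L2 (Site d))} {e : L2 (Site d)} (he : ‖e‖ = 1) :
    IsProbabilityMeasure (sm W e) := ⟨by rw [sm_univ, he]; simp⟩

theorem cor_bd {W : UG (L2 (Site d))} {e : L2 (Site d)} (he : ‖e‖ = 1) (t : ℝ) :
    ‖⟪e, W.U t e⟫_ℂ‖ ≤ 1 := by
  refine (norm_inner_le_norm _ _).trans ?_
  rw [W.norm', he, one_mul]

/-- measurability of the spectral measures -/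
theorem sm_measG {Ω : Type} [TopologicalSpace Ω] [FirstCountableTopology Ω] [MeasurableSpace Ω]
    [OpensMeasurableSpace Ω] {e : L2 (Site d)} (he : ‖e‖ = 1) {W : Ω → UG (L2 (Site d))}
    (hc : Continuous fun p : Ω × ℝ => ⟪e, (W p.1).U p.2 e⟫_ℂ) :
    Measurable fun w => sm (W w) e := by
  have hp : ∀ V, IsProbabilityMeasure (sm (W V) e) := fun V => smu he
  have hw : ∀ f : BoundedContinuousFunction ℝ ℝ≥0,
      Continuous fun V => ∫⁻ E, f E ∂(sm (W V) e) := by
    intro f
    refine SeqContinuous.continuous fun u V hu => ?_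
    let P : Ω → ProbabilityMeasure ℝ := fun V' => ⟨sm (W V') e, hp V'⟩
    have h1 : Tendsto (fun n => P (u n)) atTop (𝓝 (P V)) := by
      refine ProbabilityMeasure.tendsto_of_tendsto_charFun fun s => ?_
      simp only [P, ProbabilityMeasure.coe_mk]
      have e0 : ∀ V', charFun (sm (W V') e) s = ⟪e, (W V').U (-s) e⟫_ℂ := by
        intro V'
        rw [sm_inner, exp_charFun, neg_neg]
      simp only [e0]
      have hc2 : Continuous fun V' => ⟪e, (W V').U (-s) e⟫_ℂ :=
        hc.comp (show Continuous fun V' : Ω => (V', -s) by fun_prop)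
      exact (hc2.tendsto V).comp hu
    rw [ProbabilityMeasure.tendsto_iff_forall_lintegral_tendsto] at h1
    exact h1 f
  refine Measurable.measure_of_isPiSystem_of_isProbabilityMeasure
    (S := {F : Set ℝ | IsClosed F}) ?_ isPiSystem_isClosed fun F hF => ?_
  · rw [BorelSpace.measurable_eq (α := ℝ), borel_eq_generateFrom_isClosed]
  · have hδ : ∀ n : ℕ, (0 : ℝ) < 1 / ((n : ℝ) + 1) := fun n => by positivity
    refine measurable_of_tendsto_metrizable (f := fun (n : ℕ) V =>
      ∫⁻ E, (thickenedIndicator (hδ n) F E : ℝ≥0∞) ∂(sm (W V) e))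
      (fun n => (hw (thickenedIndicator (hδ n) F)).measurable) ?_
    rw [tendsto_pi_nhds]
    intro V
    exact tendsto_lintegral_thickenedIndicator_of_isClosed _ hF hδ
      tendsto_one_div_add_atTop_nhds_zero_nat

section avg

variable {e : L2 (Site d)} {W : ℝ → UG (L2 (Site d))}

/-- the correlation function -/
noncomputable def cq (W : ℝ → UG (L2 (Site d))) (e : L2 (Site d)) (κ t : ℝ) : ℂ :=
  ⟪e, (W κ).U t e⟫_ℂ

theorem cq_cont1 (κ : ℝ) : Continuous (cq W e κ) := continuous_const.inner ((W κ).cont' e)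

theorem cq_F (κ t : ℝ) : cq W e κ t = ∫ E : ℝ, Complex.exp (-(Complex.I * t * E)) ∂(sm (W κ) e) :=
  sm_inner _ _ t

theorem cq_pos (he : ‖e‖ = 1) (E : ℝ) {ε : ℝ} (hε : 0 < ε) :
    0 < (Pool.Agent.K7.H83.SI.LT (cq W e 0) E ε).re := by
  rw [LT_eq (cq_F 0) E hε]
  refine Lz_re_pos (fun h => ?_) (by simp [hε])
  have h1 := (smu (W := W 0) he).measure_univ
  rw [h] at h1
  simp at h1

theorem cq_int (he : ‖e‖ = 1) (hF : Fam W e) (E : ℝ) {ε : ℝ} (hε : 0 < ε) :
    ∫⁻ κ : ℝ, ENNReal.ofReal (Pool.Agent.K7.H83.SI.LT (cq W e κ) E ε).re =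
      ENNReal.ofReal Real.pi := by
  refine lint_inv (cq_pos (W := W) he E hε) fun κ => ?_
  have h1 := LT_volterra (a := cq W e 0) (b := cq W e κ) (C := 1)
    (c := Complex.I * ((κ - 0 : ℝ) : ℂ)) (cq_cont1 0) (cq_cont1 κ)
    (fun t => cor_bd he t) (fun t => cor_bd he t) (fun t => ?_) E hε
  · rw [sub_zero] at h1
    exact h1
  · show ⟪e, (W κ).U t e⟫_ℂ = ⟪e, (W 0).U t e⟫_ℂ - _
    rw [hF 0 κ t e, inner_sub_right, inner_smul_right]
    congr 2
    have hc : Continuous fun s : ℝ => ⟪e, (W κ).U s e⟫_ℂ • (W 0).U (t - s) e := by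
      have h2 : Continuous fun s : ℝ => (W κ).U s e := (W κ).cont' e
      have h3 : Continuous fun s : ℝ => (W 0).U (t - s) e := ((W 0).cont' e).comp (by fun_prop)
      exact (Continuous.inner (𝕜 := ℂ) continuous_const h2).smul h3
    have h4 : ⟪e, ∫ s in (0 : ℝ)..t, ⟪e, (W κ).U s e⟫_ℂ • (W 0).U (t - s) e⟫_ℂ =
        ∫ s in (0 : ℝ)..t, ⟪e, ⟪e, (W κ).U s e⟫_ℂ • (W 0).U (t - s) e⟫_ℂ :=
      ((innerSL ℂ e).intervalIntegral_comp_comm
        (hc.intervalIntegrable (μ := volume) 0 t)).symm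
    refine h4.trans ?_
    refine intervalIntegral.integral_congr fun s _ => ?_
    exact inner_smul_right _ _ _

theorem avgG_ball (he : ‖e‖ = 1) (hF : Fam W e) (hc : Continuous fun p : ℝ × ℝ => cq W e p.1 p.2)
    (n : ℕ) (y : ℝ) {r : ℝ} (hr : 0 < r) :
    ∫⁻ κ in Set.Icc (-(n : ℝ)) n, sm (W κ) e (Metric.closedBall y r) ≤
      ((2 * Real.pi).toNNReal • (volume : Measure ℝ)) (Metric.closedBall y r) := by
  have hcm : Measurable fun p : ℝ × ℝ =>
      ENNReal.ofReal (Pool.Agent.K7.H83.SI.LT (cq W e p.1) p.2 (2 * r)).re :=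
    (Complex.continuous_re.comp (LT_cont hc (fun κ t => cor_bd (W := W κ) he t)
      (by positivity))).measurable.ennreal_ofReal
  have h1 : ENNReal.ofReal (1 / 2) * (∫⁻ κ in Set.Icc (-(n : ℝ)) n,
      sm (W κ) e (Metric.closedBall y r)) ≤
      ENNReal.ofReal Real.pi * volume (Metric.closedBall y r) := by
    calc ENNReal.ofReal (1 / 2) * (∫⁻ κ in Set.Icc (-(n : ℝ)) n,
          sm (W κ) e (Metric.closedBall y r))
        = ∫⁻ κ in Set.Icc (-(n : ℝ)) n, ENNReal.ofReal (1 / 2) *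
            sm (W κ) e (Metric.closedBall y r) := by
          rw [lintegral_const_mul' _ _ ENNReal.ofReal_ne_top]
      _ ≤ ∫⁻ κ in Set.Icc (-(n : ℝ)) n, ∫⁻ E in Metric.closedBall y r,
            ENNReal.ofReal (Pool.Agent.K7.H83.SI.LT (cq W e κ) E (2 * r)).re :=
          lintegral_mono fun κ => ball_le (cq_F κ) y hr
      _ = ∫⁻ E in Metric.closedBall y r, ∫⁻ κ in Set.Icc (-(n : ℝ)) n,
            ENNReal.ofReal (Pool.Agent.K7.H83.SI.LT (cq W e κ) E (2 * r)).re := by
          exact lintegral_lintegral_swap hcm.aemeasurable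
      _ ≤ ∫⁻ _E in Metric.closedBall y r, ENNReal.ofReal Real.pi := by
          refine lintegral_mono fun E => ?_
          rw [← cq_int he hF E (ε := 2 * r) (by positivity)]
          exact setLIntegral_le_lintegral _ _
      _ = ENNReal.ofReal Real.pi * volume (Metric.closedBall y r) := by
          rw [setLIntegral_const]
  have h2 : (2 : ℝ≥0∞) * ENNReal.ofReal (1 / 2) = 1 := by
    rw [show (2 : ℝ≥0∞) = ENNReal.ofReal 2 by simp, ← ENNReal.ofReal_mul (by norm_num)]
    norm_num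
  set X := ∫⁻ κ in Set.Icc (-(n : ℝ)) n, sm (W κ) e (Metric.closedBall y r)
  calc X = 2 * (ENNReal.ofReal (1 / 2) * X) := by
        rw [← mul_assoc, h2, one_mul]
    _ ≤ 2 * (ENNReal.ofReal Real.pi * volume (Metric.closedBall y r)) := by gcongr
    _ = ((2 * Real.pi).toNNReal • (volume : Measure ℝ)) (Metric.closedBall y r) := by
        rw [Measure.smul_apply, ENNReal.smul_def, smul_eq_mul, ← mul_assoc]
        congr 1
        rw [show (2 : ℝ≥0∞) = ENNReal.ofReal 2 by simp, ← ENNReal.ofReal_mul (by norm_num)]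
        rfl

theorem avgG (he : ‖e‖ = 1) (hF : Fam W e) (hc : Continuous fun p : ℝ × ℝ => cq W e p.1 p.2)
    {N : Set ℝ} (hN : MeasurableSet N) (h0 : volume N = 0) : ∀ᵐ κ : ℝ, sm (W κ) e N = 0 := by
  have hsm : Measurable fun κ : ℝ => sm (W κ) e := sm_measG he hc
  have hfin' : ∀ n : ℕ, ∀ᵐ κ ∂(volume.restrict (Set.Icc (-(n : ℝ)) n)), sm (W κ) e N = 0 := by
    intro n
    set ρ : Measure ℝ := Measure.bind (volume.restrict (Set.Icc (-(n : ℝ)) n))
      (fun κ : ℝ => sm (W κ) e) with hρ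
    have hρa : ∀ s : Set ℝ, MeasurableSet s → ρ s =
        ∫⁻ κ in Set.Icc (-(n : ℝ)) n, sm (W κ) e s := fun s hs =>
      Measure.bind_apply hs hsm.aemeasurable
    have hfin : IsFiniteMeasure ρ := by
      refine ⟨?_⟩
      rw [hρa Set.univ MeasurableSet.univ]
      have h1 : ∀ κ : ℝ, sm (W κ) e Set.univ = 1 := fun κ => (smu he).measure_univ
      simp only [h1]
      rw [setLIntegral_const, one_mul]
      exact measure_Icc_lt_top
    have hle : ∀ (y r : ℝ), 0 < r → ρ (Metric.closedBall y r) ≤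
        ((2 * Real.pi).toNNReal • (volume : Measure ℝ)) (Metric.closedBall y r) := by
      intro y r hr
      rw [hρa _ Metric.isClosed_closedBall.measurableSet]
      exact avgG_ball he hF hc n y hr
    have h3 : ρ N ≤ ((2 * Real.pi).toNNReal • (volume : Measure ℝ)) N := by
      refine (Besicovitch.vitaliFamily ρ).measure_le_of_frequently_le _
        Measure.AbsolutelyContinuous.rfl N fun y _ => ?_
      have h4 := Besicovitch.tendsto_filterAt ρ y
      refine h4.frequently (Eventually.frequently ?_)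
      filter_upwards [self_mem_nhdsWithin] with r hr
      exact hle y r hr
    rw [Measure.smul_apply, h0, smul_zero, nonpos_iff_eq_zero, hρa N hN] at h3
    have hm : Measurable fun κ : ℝ => sm (W κ) e N := (Measure.measurable_coe hN).comp hsm
    exact (lintegral_eq_zero_iff hm).1 h3
  have h5 : ∀ n : ℕ, ∀ᵐ κ : ℝ, κ ∈ Set.Icc (-(n : ℝ)) n → sm (W κ) e N = 0 := fun n =>
    (ae_restrict_iff' measurableSet_Icc).1 (hfin' n)
  filter_upwards [ae_all_iff.2 h5] with κ hκ
  obtain ⟨n, hn⟩ := exists_nat_ge |κ|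
  exact hκ n (abs_le.1 hn)

end avg

end Pool.Agent.H988.CD
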