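import Pool.Agent.H988.CD.D

/-! # Laws with a density -/

set_option autoImplicit false
set_option linter.unusedSectionVars false
set_option maxHeartbeats 400000

open MeasureTheory Filter Topology
open scoped BigOperators ENNReal NNReal InnerProductSpace ComplexConjugate

namespace Pool.Agent.H988.CD

open Pool.Agent.H5R2.NB Pool.Agent.H5R2.NBA Pool.Agent.H988.DJ Pool.Agent.H988.RS
open Pool.Agent.K7.H83.SI
open Pool.Agent.Y662.ERG (Ex Ex_deriv Ex_zero Ex_add Ex_norm Ex_comm Ex_inv)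
open Pool.Agent.TH980.CN (Ed cc cc_eq HC HC_apply HC_sa HC_cont HC_up be be_ne inner_be be_apply)
open Pool.Agent.TH980.IM.PR (up mp_up mp_sh)

variable {d : ℕ} {a b : ℝ}

theorem ux_joint {X : Type} [NormedAddCommGroup X] [InnerProductSpace ℂ X] [CompleteSpace X]
    {Ω : Type} [TopologicalSpace Ω] [FirstCountableTopology Ω] {T : Ω → X →L[ℂ] X}
    (hT : ∀ w, IsSelfAdjoint (T w)) (hc : ∀ y, Continuous fun w => T w y) (e : X) :
    Continuous fun p : Ω × ℝ => ⟪e, (ux (T p.1) (hT p.1)).U p.2 e⟫_ℂ := by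
  have h1 := Ex_joint hT hc
  have h2 : Continuous fun p : Ω × ℝ => (p.1, p.2, e) := by fun_prop
  have h3 : Continuous fun p : Ω × ℝ => Ex (T p.1) p.2 e := h1.comp h2
  have h4 : Continuous fun _ : Ω × ℝ => e := continuous_const
  exact Continuous.inner (𝕜 := ℂ) h4 h3

theorem dyn_comp {Ω Ω' : Type} [TopologicalSpace Ω] [TopologicalSpace Ω'] {θ : Site d → Ω → Ω}
    {θ' : Site d → Ω' → Ω'} {W : Ω → UG (L2 (Site d))} (h : Dyn θ W) {f : Ω' → Ω}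
    (hf : Continuous f) (hθ : ∀ z p, f (θ' z p) = θ z (f p)) : Dyn θ' (fun p => W (f p)) := by
  refine ⟨?_, fun z S hS p t ψ => ?_⟩
  · have h2 : Continuous fun p : Ω' × ℝ × L2 (Site d) => (f p.1, p.2) := by fun_prop
    exact h.cont.comp h2
  · rw [hθ]
    exact h.cov z S hS (f p) t ψ

/-- the unit vector of an edge -/
noncomputable def ue (e : Ed d) : L2 (Site d) := ((‖(be e : L2 (Site d))‖ : ℂ)⁻¹) • be e

theorem ue_norm (e : Ed d) : ‖(ue e : L2 (Site d))‖ = 1 := by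
  unfold ue
  rw [norm_smul, norm_inv, Complex.norm_real, norm_norm,
    inv_mul_cancel₀ (norm_ne_zero_iff.2 (be_ne e))]

theorem sm_be_zero {W : UG (L2 (Site d))} {e : Ed d} {N : Set ℝ} (h : sm W (ue e) N = 0) :
    sm W (be e) N = 0 := by
  have h1 : (be e : L2 (Site d)) = (‖(be e : L2 (Site d))‖ : ℂ) • ue e := by
    unfold ue
    rw [smul_smul, mul_inv_cancel₀, one_smul]
    exact_mod_cast norm_ne_zero_iff.2 (be_ne e)
  rw [h1, sm_smul, Measure.smul_apply, h, smul_zero]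

/-- spectral averaging for one edge -/
theorem avg_edge (ha : 0 < a) (hab : a ≤ b) (w : Ed d → ℝ) (e : Ed d) {N : Set ℝ}
    (hN : MeasurableSet N) (h0 : volume N = 0) :
    ∀ᵐ κ : ℝ, sm (ux (Te a b w e κ) (Te_sa ha hab w e κ)) (ue e) N = 0 := by
  set q : ℝ := ‖(be e : L2 (Site d))‖ ^ 2 with hq
  have hq0 : q ≠ 0 := pow_ne_zero 2 (norm_ne_zero_iff.2 (be_ne e))
  have hF : Fam (fun κ => ux (Te a b w e (q⁻¹ * κ)) (Te_sa ha hab w e _)) (ue e) := by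
    refine fam_ux _ fun κ κ' y => ?_
    rw [Te_apply, Te_apply, add_assoc]
    congr 1
    unfold ue
    rw [inner_smul_left, smul_smul, ← add_smul]
    congr 1
    rw [map_inv₀, Complex.conj_ofReal]
    have hn : ((‖(be e : L2 (Site d))‖ : ℝ) : ℂ) ≠ 0 := by
      exact_mod_cast norm_ne_zero_iff.2 (be_ne e)
    rw [hq]
    push_cast
    field_simp
    ring
  have hc : Continuous fun p : ℝ × ℝ => cq (fun κ => ux (Te a b w e (q⁻¹ * κ))
      (Te_sa ha hab w e _)) (ue e) p.1 p.2 := by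
    refine ux_joint (T := fun κ : ℝ => Te a b w e (q⁻¹ * κ)) (fun κ => Te_sa ha hab w e _)
      (fun y => ?_) (ue e)
    simp only [Te_apply]
    fun_prop
  have h1 := avgG (ue_norm e) hF hc hN h0
  rw [ae_iff] at h1 ⊢
  have h2 : {κ : ℝ | ¬ sm (ux (Te a b w e κ) (Te_sa ha hab w e κ)) (ue e) N = 0} =
      (fun κ : ℝ => q * κ) ⁻¹' {κ : ℝ | ¬ sm (ux (Te a b w e (q⁻¹ * κ))
        (Te_sa ha hab w e _)) (ue e) N = 0} := by
    ext κ
    show ¬ _ ↔ ¬ sm (ux (Te a b w e (q⁻¹ * (q * κ))) (Te_sa ha hab w e _)) (ue e) N = 0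
    have h3 : ux (Te a b w e (q⁻¹ * (q * κ))) (Te_sa ha hab w e _) =
        ux (Te a b w e κ) (Te_sa ha hab w e κ) := by
      refine ux_congr ?_ _ _
      rw [← mul_assoc, inv_mul_cancel₀ hq0, one_mul]
    rw [h3]
  rw [h2, Real.volume_preimage_mul_left hq0, h1, mul_zero]

/-- a fixed null set is not charged -/
theorem no_charge (ha : 0 < a) (hab : a ≤ b) {ν : Measure ℝ} [IsProbabilityMeasure ν]
    (hν1 : ∀ᵐ v ∂ν, v ∈ Set.Icc a b) (hν : ν ≪ volume) {N : Set ℝ} (hN : MeasurableSet N)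
    (h0 : volume N = 0) :
    ∀ᵐ w ∂(Pool.Agent.TH980.IM.PR.PP (Ed d) ν), ∀ e : Ed d, sm (wc ha hab w) (be e) N = 0 := by
  rw [ae_all_iff]
  intro e
  have hmm : Measurable fun w : Ed d → ℝ => sm (wc ha hab w) (ue e) N := by
    refine (Measure.measurable_coe hN).comp (sm_measG (ue_norm e) ?_)
    exact ux_joint (T := fun w : Ed d → ℝ => HC a b w) (fun w => HC_sa ha hab w)
      (fun y => HC_cont a b y) (ue e)
  have hBm : MeasurableSet {w : Ed d → ℝ | sm (wc ha hab w) (ue e) N ≠ 0} :=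
    hmm (measurableSet_singleton (0 : ℝ≥0∞)).compl
  have hres := mp_up ν e
  have h2 : (Pool.Agent.TH980.IM.PR.PP (Ed d) ν)
      {w : Ed d → ℝ | sm (wc ha hab w) (ue e) N ≠ 0} = 0 := by
    rw [← hres.measure_preimage hBm.nullMeasurableSet,
      Measure.measure_prod_null (hres.measurable hBm)]
    refine Eventually.of_forall fun w => ?_
    show ν {κ : ℝ | sm (wc ha hab (up e (w, κ))) (ue e) N ≠ 0} = 0
    have h3 : ∀ᵐ κ ∂ν, sm (wc ha hab (up e (w, κ))) (ue e) N = 0 := by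
      filter_upwards [hν1, hν.ae_le (avg_edge ha hab w e hN h0)] with κ h4 h5
      have h6 : ux (Te a b w e κ) (Te_sa ha hab w e κ) = wc ha hab (up e (w, κ)) := by
        refine ux_congr ?_ _ _
        rw [← Te_up ha hab, cc_eq h4]
      rw [← h6]
      exact h5
    exact h3
  have h3 : ∀ᵐ w ∂(Pool.Agent.TH980.IM.PR.PP (Ed d) ν), sm (wc ha hab w) (ue e) N = 0 := h2
  filter_upwards [h3] with w hw
  exact sm_be_zero hw

/-- the limits vanish for any fixed comparison dynamics -/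
theorem fixed_zeroE (hd : 1 ≤ d) (ha : 0 < a) (hab : a ≤ b) (R : UG (L2 (Site d)))
    {ν : Measure ℝ} [IsProbabilityMeasure ν] (hν1 : ∀ᵐ v ∂ν, v ∈ Set.Icc a b) (hν : ν ≪ volume)
    (Nk : ℕ → ℕ) (hNk : Tendsto Nk atTop atTop)
    (hG : ∀ᵐ w ∂(Pool.Agent.TH980.IM.PR.PP (Ed d) ν), ∃ B : L2 (Site d) →L[ℂ] L2 (Site d),
      GoodQ R (wc ha hab w) Nk B) :
    ∀ᵐ w ∂(Pool.Agent.TH980.IM.PR.PP (Ed d) ν), ∀ B : L2 (Site d) →L[ℂ] L2 (Site d),
      GoodQ R (wc ha hab w) Nk B → B = 0 := by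
  have hν2 : ∀ κ : ℝ, ν {κ} ≠ 1 := fun κ => by
    rw [hν (by simp : volume {κ} = 0)]
    exact zero_ne_one
  obtain ⟨N, hN, hN0, hN1⟩ := exists_null R
  filter_upwards [no_charge ha hab hν1 hν hN hN0, edge_sing ha hab R hν1 hν2 Nk hNk hG]
    with w e1 e2 B hB
  refine zero_of_be hd fun e => ?_
  have h3 : B (be e) ∈ sg R := fun ψ hψ => e2 e B hB ψ (hac_of_sm hψ)
  have h4 : B (be e) ∈ nul R N := mem_nul.2 (nul_inter (good_comm hNk hB) hN (e1 e))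
  exact eq_zero_of_nul h4 (mem_nul.2 (hN1 _ h3))

/-- any translation invariant dynamics -/
theorem cd_disjoint' (hd : 1 ≤ d) (ha : 0 < a) (hab : a ≤ b) {R : UG (L2 (Site d))}
    (hR : ∀ (z : Site d) (S : L2 (Site d) →L[ℂ] L2 (Site d)), IsShift z S → ∀ t ψ,
      R.U t (S ψ) = S (R.U t ψ)) {ν : Measure ℝ}
    [IsProbabilityMeasure ν] (hν1 : ∀ᵐ v ∂ν, v ∈ Set.Icc a b) (hν : ν ≪ volume)
    {ψ : (Ed d → ℝ) → L2 (Site d)} (hψ : MemLp ψ 2 (Pool.Agent.TH980.IM.PR.PP (Ed d) ν)) :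
    Tendsto (fun T : ℝ => ∫⁻ w, ‖avT R (wc ha hab w) T (ψ w)‖ₑ ^ 2
      ∂(Pool.Agent.TH980.IM.PR.PP (Ed d) ν)) atTop (𝓝 0) ∧
    Tendsto (fun T : ℝ => ∫⁻ w, ‖avT (wc ha hab w) R T (ψ w)‖ₑ ^ 2
      ∂(Pool.Agent.TH980.IM.PR.PP (Ed d) ν)) atTop (𝓝 0) := by
  have hP : IsProbabilityMeasure (Pool.Agent.TH980.IM.PR.PP (Ed d) ν) := by
    unfold Pool.Agent.TH980.IM.PR.PP
    infer_instance
  have hz : ∀ Nk : ℕ → ℕ, Tendsto Nk atTop atTop →
      (∀ᵐ w ∂(Pool.Agent.TH980.IM.PR.PP (Ed d) ν), ∃ B : L2 (Site d) →L[ℂ] L2 (Site d),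
        GoodQ R (wc ha hab w) Nk B) →
      ∀ᵐ w ∂(Pool.Agent.TH980.IM.PR.PP (Ed d) ν), ∀ B : L2 (Site d) →L[ℂ] L2 (Site d),
        GoodQ R (wc ha hab w) Nk B → B = 0 := fun Nk hNk hG =>
    fixed_zeroE hd ha hab R hν1 hν Nk hNk hG
  exact ⟨main_disj (R := fun _ => R) (W := wc ha hab) (th_mp hd ν) (dyn_G hR) (dyn_wc ha hab) hz hψ,
    main_disj' (R := fun _ => R) (W := wc ha hab) (th_mp hd ν) (dyn_G hR) (dyn_wc ha hab) hz hψ⟩

/-- the translations of pairs -/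
def th2 (z : Site d) (p : (Ed d → ℝ) × (Ed d → ℝ)) : (Ed d → ℝ) × (Ed d → ℝ) :=
  (th z p.1, th z p.2)

theorem dyn_1 (ha : 0 < a) (hab : a ≤ b) : Dyn (th2 (d := d)) (fun p => wc ha hab p.1) :=
  dyn_comp (dyn_wc ha hab) continuous_fst fun _ _ => rfl

theorem dyn_2 (ha : 0 < a) (hab : a ≤ b) : Dyn (th2 (d := d)) (fun p => wc ha hab p.2) :=
  dyn_comp (dyn_wc ha hab) continuous_snd fun _ _ => rfl

/-- the limits vanish almost surely for two independent samples -/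
theorem hz_two (hd : 1 ≤ d) (ha : 0 < a) (hab : a ≤ b) {ν : Measure ℝ} [IsProbabilityMeasure ν]
    (hν1 : ∀ᵐ v ∂ν, v ∈ Set.Icc a b) (hν : ν ≪ volume)
    (Nk : ℕ → ℕ) (hNk : Tendsto Nk atTop atTop)
    (hG : ∀ᵐ p ∂((Pool.Agent.TH980.IM.PR.PP (Ed d) ν).prod (Pool.Agent.TH980.IM.PR.PP (Ed d) ν)),
      ∃ B : L2 (Site d) →L[ℂ] L2 (Site d), GoodQ (wc ha hab p.1) (wc ha hab p.2) Nk B) :
    ∀ᵐ p ∂((Pool.Agent.TH980.IM.PR.PP (Ed d) ν).prod (Pool.Agent.TH980.IM.PR.PP (Ed d) ν)),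
      ∀ B : L2 (Site d) →L[ℂ] L2 (Site d), GoodQ (wc ha hab p.1) (wc ha hab p.2) Nk B → B = 0 := by
  have h1 := Measure.ae_ae_of_ae_prod hG
  have h2 : ∀ᵐ w' ∂(Pool.Agent.TH980.IM.PR.PP (Ed d) ν),
      ∀ᵐ w ∂(Pool.Agent.TH980.IM.PR.PP (Ed d) ν), ∀ x : Site d,
      Tendsto (fun k => ‖avq id (wc ha hab w') (wc ha hab w) (Nk k) (dl x)‖) atTop (𝓝 0) := by
    filter_upwards [h1] with w' hw'
    filter_upwards [hw', fixed_zeroE hd ha hab (wc ha hab w') hν1 hν Nk hNk hw'] with w ⟨B, hB⟩ h3 x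
    have h4 := (hB (dl x)).1.norm
    rwa [h3 B hB, zero_apply, norm_zero] at h4
  have hm : ∀ (x : Site d) (k : ℕ), Measurable fun p : (Ed d → ℝ) × (Ed d → ℝ) =>
      ‖avq id (wc ha hab p.1) (wc ha hab p.2) (Nk k) (dl x)‖ := fun x k =>
    (((cont_avq (dyn_1 ha hab) (dyn_2 ha hab) continuous_id (Nk k)).comp
      (continuous_id.prodMk continuous_const)).norm).measurable
  have hms : MeasurableSet {p : (Ed d → ℝ) × (Ed d → ℝ) | ∀ x : Site d,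
      Tendsto (fun k => ‖avq id (wc ha hab p.1) (wc ha hab p.2) (Nk k) (dl x)‖) atTop (𝓝 0)} := by
    rw [Set.ofPred_forall]
    exact MeasurableSet.iInter fun x => measurableSet_tendsto (𝓝 (0 : ℝ)) (hm x)
  have h3 := (Measure.ae_prod_iff_ae_ae hms).2 h2
  filter_upwards [h3] with p hp B hB
  have h4 : ∀ x : Site d, B (dl x) = 0 := fun x =>
    norm_eq_zero.1 (tendsto_nhds_unique (hB (dl x)).1.norm (hp x))
  have h5 : closure (Submodule.span ℂ (Set.range (dl (d := d))) : Set (L2 (Site d))) ⊆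
      LinearMap.ker B.toLinearMap := by
    refine closure_minimal ?_ B.isClosed_ker
    have h6 : Submodule.span ℂ (Set.range (dl (d := d))) ≤ LinearMap.ker B.toLinearMap := by
      rw [Submodule.span_le]
      rintro _ ⟨y, rfl⟩
      exact h4 y
    exact h6
  ext1 u
  exact h5 (LIMB.dl_dense d u)

/-- if the averages tend to zero in mean square for independent copies, then the mean wave decays -/
theorem mean_of_disjE {W : (Ed d → ℝ) → UG (L2 (Site d))} {P : Measure (Ed d → ℝ)}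
    [IsProbabilityMeasure P]
    (hW : Continuous fun p : (Ed d → ℝ) × ℝ × L2 (Site d) => (W p.1).U p.2.1 p.2.2)
    (ψ : L2 (Site d))
    (h : Tendsto (fun T : ℝ => ∫⁻ p, ‖avT (W p.1) (W p.2) T ψ‖ₑ ^ 2 ∂(P.prod P)) atTop (𝓝 0)) :
    Tendsto (fun T : ℝ => T⁻¹ * ∫ t in (0 : ℝ)..T, ‖∫ ω, (W ω).U t ψ ∂P‖ ^ 2) atTop (𝓝 0) := by
  have hcU : ∀ {α : Type} [TopologicalSpace α] {f : α → (Ed d → ℝ)} {s : α → ℝ}
      {g : α → L2 (Site d)}, Continuous f → Continuous s → Continuous g →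
      Continuous fun a => (W (f a)).U (s a) (g a) := fun hf hs hg =>
    hW.comp (hf.prodMk (hs.prodMk hg))
  -- joint continuity
  have hqc : Continuous fun p : ℝ × ((Ed d → ℝ) × (Ed d → ℝ)) =>
      q (W p.2.1) (W p.2.2) ψ p.1 := by
    unfold q
    exact hcU (continuous_fst.comp continuous_snd) continuous_fst.neg
      (hcU (continuous_snd.comp continuous_snd) continuous_fst continuous_const)
  have hUi : ∀ t, Integrable (fun ω => (W ω).U t ψ) P := fun t =>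
    Integrable.of_bound (hcU continuous_id continuous_const continuous_const).aestronglyMeasurable
      ‖ψ‖ (Eventually.of_forall fun ω => ((W ω).norm' t ψ).le)
  -- the square as a double integral
  have h1 : ∀ t, ((‖∫ ω, (W ω).U t ψ ∂P‖ ^ 2 : ℝ) : ℂ) =
      ∫ p, ⟪ψ, q (W p.1) (W p.2) ψ t⟫_ℂ ∂(P.prod P) := by
    intro t
    have e1 : ((‖∫ ω, (W ω).U t ψ ∂P‖ ^ 2 : ℝ) : ℂ) =
        ⟪∫ ω, (W ω).U t ψ ∂P, ∫ ω, (W ω).U t ψ ∂P⟫_ℂ := by
      rw [inner_self_eq_norm_sq_to_K]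
      push_cast
      rfl
    have e2 : ⟪∫ ω, (W ω).U t ψ ∂P, ∫ ω, (W ω).U t ψ ∂P⟫_ℂ =
        ∫ ω', ⟪(W ω').U t ψ, ∫ ω, (W ω).U t ψ ∂P⟫_ℂ ∂P := by
      have h2 := integral_inner (𝕜 := ℂ) (hUi t) (∫ ω, (W ω).U t ψ ∂P)
      rw [← inner_conj_symm, ← h2, ← integral_conj]
      refine integral_congr_ae (Eventually.of_forall fun ω => ?_)
      show conj ⟪∫ ω, (W ω).U t ψ ∂P, (W ω).U t ψ⟫_ℂ = ⟪(W ω).U t ψ, ∫ ω, (W ω).U t ψ ∂P⟫_ℂ
      rw [inner_conj_symm]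
    have e3 : ∀ ω', ⟪(W ω').U t ψ, ∫ ω, (W ω).U t ψ ∂P⟫_ℂ =
        ∫ ω, ⟪ψ, q (W ω') (W ω) ψ t⟫_ℂ ∂P := by
      intro ω'
      rw [← integral_inner (𝕜 := ℂ) (hUi t)]
      refine integral_congr_ae (Eventually.of_forall fun ω => ?_)
      show ⟪(W ω').U t ψ, (W ω).U t ψ⟫_ℂ = ⟪ψ, (W ω').U (-t) ((W ω).U t ψ)⟫_ℂ
      rw [← ANTI.inner_adj]
    rw [e1, e2]
    simp only [e3]
    have hi : Integrable (fun p : (Ed d → ℝ) × (Ed d → ℝ) => ⟪ψ, q (W p.1) (W p.2) ψ t⟫_ℂ)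
        (P.prod P) := by
      refine Integrable.of_bound (C := ‖ψ‖ * ‖ψ‖) ?_ (Eventually.of_forall fun p => ?_)
      · have hc : Continuous fun p : (Ed d → ℝ) × (Ed d → ℝ) => q (W p.1) (W p.2) ψ t :=
          hqc.comp (continuous_const.prodMk continuous_id)
        exact (continuous_const.inner hc).aestronglyMeasurable
      · refine (norm_inner_le_norm _ _).trans ?_
        rw [q_norm]
    exact (integral_prod _ hi).symm
  -- Fubini
  have h2 : ∀ T : ℝ, 0 < T → ((T⁻¹ * ∫ t in (0 : ℝ)..T, ‖∫ ω, (W ω).U t ψ ∂P‖ ^ 2 : ℝ) : ℂ) =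
      ∫ p, ⟪ψ, avT (W p.1) (W p.2) T ψ⟫_ℂ ∂(P.prod P) := by
    intro T hT
    have e1 : ((∫ t in (0 : ℝ)..T, ‖∫ ω, (W ω).U t ψ ∂P‖ ^ 2 : ℝ) : ℂ) =
        ∫ t in (0 : ℝ)..T, ∫ p, ⟪ψ, q (W p.1) (W p.2) ψ t⟫_ℂ ∂(P.prod P) := by
      rw [← intervalIntegral.integral_ofReal]
      exact intervalIntegral.integral_congr fun t _ => h1 t
    have e2 : ∀ p : (Ed d → ℝ) × (Ed d → ℝ), ⟪ψ, avT (W p.1) (W p.2) T ψ⟫_ℂ =
        (T : ℂ)⁻¹ * ∫ t in (0 : ℝ)..T, ⟪ψ, q (W p.1) (W p.2) ψ t⟫_ℂ := by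
      intro p
      unfold avT
      rw [inner_smul_right]
      congr 1
      exact ((innerSL ℂ ψ).intervalIntegral_comp_comm
        ((q_cont (W p.1) (W p.2) ψ).intervalIntegrable (μ := volume) 0 T)).symm
    simp only [e2]
    rw [integral_const_mul, Complex.ofReal_mul, Complex.ofReal_inv, e1]
    congr 1
    simp only [intervalIntegral.integral_of_le hT.le]
    refine integral_integral_swap ?_
    have hfin : IsFiniteMeasure (volume.restrict (Set.Ioc (0 : ℝ) T)) := ⟨by simp⟩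
    refine Integrable.of_bound (C := ‖ψ‖ * ‖ψ‖) ?_ (Eventually.of_forall fun p => ?_)
    · have hc : Continuous fun p : ℝ × ((Ed d → ℝ) × (Ed d → ℝ)) =>
          ⟪ψ, q (W p.2.1) (W p.2.2) ψ p.1⟫_ℂ := continuous_const.inner hqc
      exact hc.aestronglyMeasurable
    · show ‖⟪ψ, q (W p.2.1) (W p.2.2) ψ p.1⟫_ℂ‖ ≤ ‖ψ‖ * ‖ψ‖
      refine (norm_inner_le_norm _ _).trans ?_
      rw [q_norm]
  -- the bound
  have h3 : ∀ T : ℝ, 0 < T → ‖T⁻¹ * ∫ t in (0 : ℝ)..T, ‖∫ ω, (W ω).U t ψ ∂P‖ ^ 2‖ₑ ≤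
      ‖ψ‖ₑ * (∫⁻ p, ‖avT (W p.1) (W p.2) T ψ‖ₑ ^ 2 ∂(P.prod P)) ^ (2⁻¹ : ℝ) := by
    intro T hT
    have hme : AEStronglyMeasurable (fun p : (Ed d → ℝ) × (Ed d → ℝ) =>
        avT (W p.1) (W p.2) T ψ) (P.prod P) := by
      have hc : Continuous fun p : (Ed d → ℝ) × (Ed d → ℝ) => avT (W p.1) (W p.2) T ψ := by
        unfold avT
        have h3 : Continuous fun p : ((Ed d → ℝ) × (Ed d → ℝ)) × ℝ =>
            q (W p.1.1) (W p.1.2) ψ p.2 := hqc.comp (continuous_snd.prodMk continuous_fst)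
        exact (intervalIntegral.continuous_parametric_intervalIntegral_of_continuous'
          (f := fun (p : (Ed d → ℝ) × (Ed d → ℝ)) (s : ℝ) => q (W p.1) (W p.2) ψ s) h3 0
            T).const_smul ((T : ℂ)⁻¹)
      exact hc.aestronglyMeasurable
    have e1 : ‖T⁻¹ * ∫ t in (0 : ℝ)..T, ‖∫ ω, (W ω).U t ψ ∂P‖ ^ 2‖ₑ =
        ‖∫ p, ⟪ψ, avT (W p.1) (W p.2) T ψ⟫_ℂ ∂(P.prod P)‖ₑ := by
      rw [← h2 T hT, ← ofReal_norm, ← ofReal_norm, Complex.norm_real]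
    rw [e1]
    refine (enorm_integral_le_lintegral_enorm _).trans ?_
    calc ∫⁻ p, ‖⟪ψ, avT (W p.1) (W p.2) T ψ⟫_ℂ‖ₑ ∂(P.prod P)
        ≤ ∫⁻ p, ‖ψ‖ₑ * ‖avT (W p.1) (W p.2) T ψ‖ₑ ∂(P.prod P) := by
          refine lintegral_mono fun p => ?_
          rw [← ofReal_norm, ← ofReal_norm, ← ofReal_norm, ← ENNReal.ofReal_mul (norm_nonneg _)]
          exact ENNReal.ofReal_le_ofReal (norm_inner_le_norm _ _)
      _ = ‖ψ‖ₑ * ∫⁻ p, ‖avT (W p.1) (W p.2) T ψ‖ₑ ∂(P.prod P) :=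
          lintegral_const_mul' _ _ enorm_ne_top
      _ ≤ ‖ψ‖ₑ * (∫⁻ p, ‖avT (W p.1) (W p.2) T ψ‖ₑ ^ 2 ∂(P.prod P)) ^ (2⁻¹ : ℝ) := by
          gcongr
          have h4 := eLpNorm_le_eLpNorm_of_exponent_le (μ := P.prod P)
            (p := 1) (q := 2) (by norm_num) hme
          rw [eLpNorm_one_eq_lintegral_enorm] at h4
          refine h4.trans (le_of_eq ?_)
          have h5 := eLpNorm_nnreal_pow_eq_lintegral (f := fun p : (Ed d → ℝ) × (Ed d → ℝ) =>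
            avT (W p.1) (W p.2) T ψ) (μ := P.prod P) (p := 2) two_ne_zero
          have h6 : ((2 : ℝ≥0) : ℝ≥0∞) = 2 := rfl
          have h7 : ((2 : ℝ≥0) : ℝ) = 2 := rfl
          rw [h6, h7] at h5
          simp only [ENNReal.rpow_two] at h5
          rw [← h5, ← ENNReal.rpow_natCast, ← ENNReal.rpow_mul]
          norm_num
  have h4 : Tendsto (fun T : ℝ => ‖ψ‖ₑ *
      (∫⁻ p, ‖avT (W p.1) (W p.2) T ψ‖ₑ ^ 2 ∂(P.prod P)) ^ (2⁻¹ : ℝ)) atTop (𝓝 0) := by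
    have h5 : Tendsto (fun T : ℝ =>
      (∫⁻ p, ‖avT (W p.1) (W p.2) T ψ‖ₑ ^ 2 ∂(P.prod P)) ^ (2⁻¹ : ℝ)) atTop (𝓝 0) := by
      have h6 := (ENNReal.continuous_rpow_const (y := (2⁻¹ : ℝ))).tendsto (0 : ℝ≥0∞)
      rw [ENNReal.zero_rpow_of_pos (by norm_num)] at h6
      exact h6.comp h
    have h6 := ENNReal.Tendsto.const_mul (a := ‖ψ‖ₑ) h5 (Or.inr enorm_ne_top)
    rwa [mul_zero] at h6
  rw [tendsto_zero_iff_enorm_tendsto_zero]
  refine tendsto_of_tendsto_of_tendsto_of_le_of_le' tendsto_const_nhds h4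
    (Eventually.of_forall fun _ => zero_le) ?_
  filter_upwards [eventually_gt_atTop (0 : ℝ)] with T hT
  exact h3 T hT

attribute [local irreducible] wc in
/-- **the mean wave decays** -/
theorem mean_waveE (hd : 1 ≤ d) (ha : 0 < a) (hab : a ≤ b) {ν : Measure ℝ}
    [IsProbabilityMeasure ν] (hν1 : ∀ᵐ v ∂ν, v ∈ Set.Icc a b) (hν : ν ≪ volume)
    (ψ : L2 (Site d)) :
    Tendsto (fun T : ℝ => T⁻¹ * ∫ t in (0 : ℝ)..T,
      ‖∫ w, (wc ha hab w).U t ψ ∂(Pool.Agent.TH980.IM.PR.PP (Ed d) ν)‖ ^ 2) atTop (𝓝 0) := by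
  have hP : IsProbabilityMeasure (Pool.Agent.TH980.IM.PR.PP (Ed d) ν) := by
    unfold Pool.Agent.TH980.IM.PR.PP
    infer_instance
  have hmp : ∀ z, MeasurePreserving (th2 (d := d) z)
      ((Pool.Agent.TH980.IM.PR.PP (Ed d) ν).prod (Pool.Agent.TH980.IM.PR.PP (Ed d) ν))
      ((Pool.Agent.TH980.IM.PR.PP (Ed d) ν).prod (Pool.Agent.TH980.IM.PR.PP (Ed d) ν)) := fun z =>
    (th_mp hd ν z).prod (th_mp hd ν z)
  have hz : ∀ Nk : ℕ → ℕ, Tendsto Nk atTop atTop →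
      (∀ᵐ p ∂((Pool.Agent.TH980.IM.PR.PP (Ed d) ν).prod (Pool.Agent.TH980.IM.PR.PP (Ed d) ν)),
        ∃ B : L2 (Site d) →L[ℂ] L2 (Site d), GoodQ (wc ha hab p.1) (wc ha hab p.2) Nk B) →
      ∀ᵐ p ∂((Pool.Agent.TH980.IM.PR.PP (Ed d) ν).prod (Pool.Agent.TH980.IM.PR.PP (Ed d) ν)),
        ∀ B : L2 (Site d) →L[ℂ] L2 (Site d), GoodQ (wc ha hab p.1) (wc ha hab p.2) Nk B → B = 0 :=
    fun Nk hNk hG => hz_two hd ha hab hν1 hν Nk hNk hG
  have hψ : MemLp (fun _ : (Ed d → ℝ) × (Ed d → ℝ) => ψ) 2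
      ((Pool.Agent.TH980.IM.PR.PP (Ed d) ν).prod (Pool.Agent.TH980.IM.PR.PP (Ed d) ν)) :=
    memLp_const ψ
  have h := main_disj (R := fun p : (Ed d → ℝ) × (Ed d → ℝ) => wc ha hab p.1)
    (W := fun p => wc ha hab p.2) hmp (dyn_1 ha hab) (dyn_2 ha hab) hz hψ
  exact mean_of_disjE (W := wc ha hab) (dyn_wc ha hab).cont ψ h

end Pool.Agent.H988.CD
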